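import Pool.Agent.Lib.helper5.Adic3

open Module

namespace Pool.Agent.Results.MP_68df70_lc.Half

/-- `N`-adic complexity of a finite sequence: least `log_N max(|f|,|g|)` over infinite extensions `e`
whose `N`-adic number is `f / g` in lowest terms with `g > 0`. -/
noncomputable def lam (N : ℕ) {n : ℕ} (a : Fin n → Fin N) : ℝ :=
  sInf {t : ℝ | ∃ e : ℕ → Fin N, (∀ i : Fin n, e i = a i) ∧
    ∃ f g : ℤ, (0 < g ∧ Int.gcd f g = 1) ∧
      (∀ m, (N : ℤ) ^ m ∣ f - g * ∑ i ∈ Finset.range m, ((e i : ℕ) : ℤ) * (N : ℤ) ^ i) ∧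
      t = Real.logb N (max |f| |g| : ℤ)}

/-- The average over all `N ^ n` sequences of length `n`. -/
noncomputable def Efin (N n : ℕ) : ℝ := (∑ a : Fin n → Fin N, lam N a) / N ^ n

theorem result (N : ℕ) (hN : 2 ≤ N) : ∃ C : ℝ, ∀ n : ℕ, |Efin N n - n / 2| ≤ C := by
  let b : Basis (Fin 1) ℤ ℤ := Basis.singleton (Fin 1) ℤ
  have hnu : ∀ x : ℤ, H5Ad.nu b x = x.natAbs := fun x => by simp [H5Ad.nu, b]
  refine H5Ad.avg (N : ℤ) b hN le_rfl (by omega) (fun u => ?_) (fun c c' h => ?_)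
    (fun f g => 0 < g ∧ Int.gcd f g = 1) (fun f g => Real.logb N (max |f| |g| : ℤ)) 0
    (fun f g h => h.1.ne') (fun f g _ => ?_) (fun f g hg => ?_)
  · have h4 := Int.emod_nonneg u (by omega : (N : ℤ) ≠ 0)
    have h5 := Int.emod_lt_of_pos u (by omega : (0 : ℤ) < N)
    refine ⟨⟨(u % N).toNat, by omega⟩, u / N, ?_⟩
    simp only [Int.toNat_of_nonneg h4]
    rw [Int.emod_def]; ring
  · have h4 := Int.eq_zero_of_abs_lt_dvd h (by have := c.2; have := c'.2; rw [abs_lt]; omega)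
    exact Fin.ext (by omega)
  · rw [hnu, hnu]
    have : ((max |f| |g| : ℤ) : ℝ) = (max f.natAbs g.natAbs : ℕ) := by
      push_cast; simp
    simp only [this]; simp
  · have hg0 : g ≠ 0 := by
      rintro rfl
      have := Int.le_of_dvd one_pos (by simpa using hg)
      omega
    have hpos : 0 < Int.gcd f g := Int.gcd_pos_of_ne_zero_right _ hg0
    obtain ⟨f', g', h1, hf, hg'⟩ := Int.exists_gcd_one hpos
    set h : ℤ := ((Int.gcd f g : ℕ) : ℤ) with hh
    have hp : 0 < h := by omega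
    have hg1 : g' ≠ 0 := by rintro rfl; simp at hg'; exact hg0 hg'
    have hcop : IsCoprime (N : ℤ) h := by
      obtain ⟨y, hy⟩ := hg
      exact ⟨-y, g', by linear_combination hy - hg'⟩
    have hle : ∀ x : ℤ, x.natAbs ≤ (x * h).natAbs := fun x => by
      rw [Int.natAbs_mul]; exact Nat.le_mul_of_pos_right _ (by omega)
    have hdv : ∀ (m : ℕ) (x : ℤ), (N : ℤ) ^ m ∣ f - g * x → (N : ℤ) ^ m ∣ f' - g' * x := fun m x hx => by
      refine (hcop.pow_left (m := m)).dvd_of_dvd_mul_right ?_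
      rw [show (f' - g' * x) * h = f - g * x by linear_combination -hf + x * hg']; exact hx
    have e1 := hle f'
    have e2 := hle g'
    rw [← hf] at e1
    rw [← hg'] at e2
    rcases lt_or_gt_of_ne hg1 with hlt | hgt
    · refine ⟨-f', -g', ⟨by omega, by simpa using h1⟩, by rw [hnu, hnu]; omega, by rw [hnu, hnu]; omega,
        fun m x hx => ?_⟩
      rw [show -f' - -g' * x = -(f' - g' * x) by ring]; exact (hdv m x hx).neg_right
    · exact ⟨f', g', ⟨hgt, h1⟩, by rw [hnu, hnu]; omega, by rw [hnu, hnu]; omega, hdv⟩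

end Pool.Agent.Results.MP_68df70_lc.Half
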